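import Pool.Agent.H76.CW.StmtB

/-!
FTY: there are finitely many types over a list (board cw_modules).
-/

set_option autoImplicit false

open Set Pool.Agent.TK Pool.Agent.H71.VK

namespace Pool.Agent.CW

theorem pf_FTY : T_FTY := by
  intro n c hc L
  induction L with
  | nil =>
    refine (Set.finite_singleton ([] : Ty)).subset ?_
    rintro t ⟨x, rfl⟩
    rfl
  | cons s L ih =>
    have hfin : ((Set.Iio n) ×ˢ (Set.Iio n) : Set (ℕ × ℕ)).Finite :=
      (Set.finite_Iio n).prod (Set.finite_Iio n)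
    refine (Set.Finite.image2 (fun (p : ℕ × ℕ) (t : Ty) => (p :: t : Ty)) hfin ih).subset ?_
    rintro t ⟨x, rfl⟩
    exact ⟨ee c x s, ⟨hc x s, hc s x⟩, tp c L x, ⟨x, rfl⟩, rfl⟩

end Pool.Agent.CW
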