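import Pool.Agent.H76.CW.StmtB

/-!
TAB: tables with given values (board cw_modules).
-/

set_option autoImplicit false

open Set Pool.Agent.TK Pool.Agent.H71.VK

namespace Pool.Agent.CW

private lemma TAB_lookup {α β : Type} [BEq α] [LawfulBEq α] [DecidableEq α] (g : α → β) (l : List α) (a : α) :
    (l.map fun a => (a, g a)).lookup a = if a ∈ l then some (g a) else none := by
  induction l with
  | nil => simp
  | cons b l ih =>
    rw [List.map_cons, List.lookup_cons]
    by_cases h : a = b
    · subst h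
      simp
    · have h1 : (a == b) = false := by
        rw [beq_eq_false_iff_ne]
        exact h
      rw [h1]
      simp only [List.mem_cons, h, false_or]
      exact ih

open Classical in
theorem pf_TAB : T_TAB := by
  intro K hK G
  have hKK : (K ×ˢ K).Finite := hK.prod hK
  let l : List (Ty × Ty) := hKK.toFinset.toList
  have hl : ∀ s t : Ty, (s, t) ∈ l ↔ s ∈ K ∧ t ∈ K := by
    intro s t
    show (s, t) ∈ hKK.toFinset.toList ↔ _
    rw [Finset.mem_toList, Set.Finite.mem_toFinset, Set.mem_prod]
  let F : Tab := l.map fun a => (a, G a.1 a.2)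
  have hF : ∀ s t, lk F s t = if s ∈ K ∧ t ∈ K then G s t else (0, 0) := by
    intro s t
    unfold lk
    show (List.lookup (s, t) (l.map fun a => (a, G a.1 a.2))).getD (0, 0) = _
    rw [TAB_lookup (fun a : Ty × Ty => G a.1 a.2) l (s, t)]
    by_cases h : (s, t) ∈ l
    · rw [if_pos h, if_pos ((hl s t).1 h)]
      rfl
    · rw [if_neg h, if_neg fun h' => h ((hl s t).2 h')]
      rfl
  refine ⟨F, fun s hs t ht => ?_, fun h s t => ?_⟩
  · rw [hF, if_pos ⟨hs, ht⟩]
  · rw [hF, hF]
    by_cases hst : s ∈ K ∧ t ∈ K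
    · rw [if_pos hst, if_pos ⟨hst.2, hst.1⟩, h s hst.1 t hst.2]
    · rw [if_neg hst, if_neg fun h' => hst ⟨h'.2, h'.1⟩]
      rfl

end Pool.Agent.CW
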